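import Pool.Agent.S06884

/-!
# An alpha-1-tough graph of minimum degree three without a deletion-contraction edge

There is a simple graph with 19 vertices and minimum degree at least 3 which is alpha-1-tough, but for
no edge `e` are both the deletion and the contraction of `e` alpha-1-tough.
-/

set_option autoImplicit false

namespace Pool.Agent.Results.MP_016f39_co.NineteenVertices

/-- the number of connected components of `H - S` -/
noncomputable def numComp {V : Type} (H : SimpleGraph V) (S : Finset V) : ℕ :=
  Nat.card (H.induce {x : V | x ∉ S}).ConnectedComponent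

/-- `H` is alpha-1-tough: there is no nonempty independent set `S` such that `H - S` has more than
`|S|` connected components -/
def AlphaOneTough {V : Type} (H : SimpleGraph V) : Prop :=
  ¬ ∃ S : Finset V, S.Nonempty ∧ (∀ x ∈ S, ∀ y ∈ S, ¬ H.Adj x y) ∧ S.card < numComp H S

/-- the deletion `G \ e` of the edge `e = u v` -/
def deletion {V : Type} (G : SimpleGraph V) (u v : V) : SimpleGraph V where
  Adj x y := G.Adj x y ∧ s(x, y) ≠ s(u, v)
  symm := ⟨fun x y h => ⟨h.1.symm, fun h' => h.2 (Sym2.eq_swap.trans h')⟩⟩
  loopless := ⟨fun x h => G.loopless.irrefl x h.1⟩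

/-- the map which identifies `v` with `u` (and fixes the other vertices) -/
def merge {V : Type} [DecidableEq V] (u v : V) (huv : u ≠ v) (x : V) : {w : V // w ≠ v} :=
  if h : x = v then ⟨u, huv⟩ else ⟨x, h⟩

/-- the contraction `G / e` of the edge `e = u v` (parallel edges merged): the two ends of `e` are
identified, and two different vertices are adjacent if some edge of `G` is mapped to them -/
def contraction {V : Type} [DecidableEq V] (G : SimpleGraph V) (u v : V) (huv : u ≠ v) :
    SimpleGraph {w : V // w ≠ v} where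
  Adj a b := a ≠ b ∧ ∃ x y : V, G.Adj x y ∧ merge u v huv x = a ∧ merge u v huv y = b
  symm := ⟨fun a b h => ⟨h.1.symm, by
    obtain ⟨x, y, h1, h2, h3⟩ := h.2
    exact ⟨y, x, h1.symm, h3, h2⟩⟩⟩
  loopless := ⟨fun a h => h.1 rfl⟩

theorem deletion_eq {V : Type} (G : SimpleGraph V) (u v : V) :
    deletion G u v = G.deleteEdges {s(u, v)} := by
  ext x y
  rw [SimpleGraph.deleteEdges_adj, Set.mem_singleton_iff]
  rfl

theorem contraction_eq {V : Type} [DecidableEq V] (G : SimpleGraph V) (u v : V) (huv : u ≠ v) :
    contraction G u v huv = SimpleGraph.fromRel (fun a b : {w : V // w ≠ v} =>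
      G.Adj a.1 b.1 ∨ (a.1 = u ∧ G.Adj v b.1)) := by
  ext a b
  rw [SimpleGraph.fromRel_adj]
  constructor
  · rintro ⟨hne, x, y, hxy, rfl, rfl⟩
    refine ⟨hne, ?_⟩
    unfold merge at hne ⊢
    by_cases hx : x = v
    · by_cases hy : y = v
      · subst hx
        subst hy
        exact absurd hxy (G.loopless.irrefl _)
      · subst hx
        left
        right
        rw [dif_pos rfl, dif_neg hy]
        exact ⟨rfl, hxy⟩
    · by_cases hy : y = v
      · subst hy
        right
        right
        rw [dif_pos rfl, dif_neg hx]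
        exact ⟨rfl, hxy.symm⟩
      · left
        left
        rw [dif_neg hx, dif_neg hy]
        exact hxy
  · have hid : ∀ c : {w : V // w ≠ v}, merge u v huv c.1 = c := by
      intro c
      unfold merge
      rw [dif_neg c.2]
    have hv : ∀ c : {w : V // w ≠ v}, c.1 = u → merge u v huv v = c := by
      intro c hc
      unfold merge
      rw [dif_pos rfl]
      exact Subtype.ext hc.symm
    rintro ⟨hne, (h | ⟨h1, h2⟩) | (h | ⟨h1, h2⟩)⟩
    · exact ⟨hne, a.1, b.1, h, hid a, hid b⟩
    · exact ⟨hne, v, b.1, h2, hv a h1, hid b⟩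
    · exact ⟨hne, a.1, b.1, h.symm, hid a, hid b⟩
    · exact ⟨hne, a.1, v, h2.symm, hid a, hv b h1⟩

/-- There is a simple graph with 19 vertices, of minimum degree at least 3, which is alpha-1-tough and
in which for every edge `e = u v` the deletion or the contraction of `e` is not alpha-1-tough. -/
theorem result : ∃ G : SimpleGraph (Fin 19), (∀ x, 3 ≤ (G.neighborSet x).ncard) ∧
    AlphaOneTough G ∧ ∀ (u v : Fin 19) (h : G.Adj u v),
      ¬ (AlphaOneTough (deletion G u v) ∧ AlphaOneTough (contraction G u v h.ne)) := by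
  classical
  refine ⟨Pool.Agent.S06884.G, ?_, ?_, ?_⟩
  · intro x
    have h := Pool.Agent.S06884.deg_ge x
    rw [← SimpleGraph.card_neighborFinset_eq_degree] at h
    rw [Set.ncard_eq_toFinset_card']
    exact h
  · rintro ⟨S, hne, hind, hlt⟩
    have h := Pool.Agent.S06884.tough S hne (fun x hx y hy _ hxy =>
      hind x (Finset.mem_coe.1 hx) y (Finset.mem_coe.1 hy) hxy)
    have e : numComp Pool.Agent.S06884.G S =
        Nat.card (Pool.Agent.S06884.G.induce ((S : Set (Fin 19))ᶜ)).ConnectedComponent := rfl
    rw [e] at hlt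
    omega
  · intro u v huv
    rintro ⟨hd, hc⟩
    rcases Pool.Agent.S06884.all_chk u v huv with ⟨h, -⟩ | ⟨h, -⟩
    · obtain ⟨S, hne, hind, hlt⟩ := Pool.Agent.S06884.del_bad u v _ _ h
      apply hd
      rw [deletion_eq]
      refine ⟨S, hne, ?_, hlt⟩
      intro x hx y hy hxy
      exact hind (Finset.mem_coe.2 hx) (Finset.mem_coe.2 hy) hxy.ne hxy
    · obtain ⟨S, hne, hind, hlt⟩ := Pool.Agent.S06884.con_bad u v _ _ h
      apply hc
      rw [contraction_eq]
      refine ⟨S, hne, ?_, hlt⟩
      intro x hx y hy hxy
      exact hind (Finset.mem_coe.2 hx) (Finset.mem_coe.2 hy) hxy.ne hxy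

end Pool.Agent.Results.MP_016f39_co.NineteenVertices
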